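import Mathlib
import Pool.Agent.W873.Vi.Final

set_option autoImplicit false

/-!
# Guessing models of size `ω₁` which are `ω₂`-guessing and not `ω₁`-guessing

If `κ` is supercompact, then some forcing notion forces that there are, for every uncountable set and
every family of `ω₁` functions, closed families of `ω₁` subsets of it which are `ω₂`-guessing and not
`ω₁`-guessing. The forcing notion is the product of Mitchell's forcing for `κ` and the forcing which
adds `κ` subsets of `ω₁` with countable conditions.
-/

namespace Pool.Agent.Results.MP_2dbc0f_lc.GuessingSplit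

open Pool.Agent.W873.Tp Pool.Agent.W873.Vi

theorem result : ∀ κ : Cardinal.{0}, IsSupercompact κ →
    ∃ (P : Type) (_ : Preorder P), Nonempty P ∧ ∀ p : P, p ∈ Omega2NotOmega1Guessing P :=
  fun κ hs => ⟨Pc (Ik κ), inferInstance, ⟨⟨Co.one, Ud.one⟩⟩, fun p => forced hs p⟩

end Pool.Agent.Results.MP_2dbc0f_lc.GuessingSplit
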